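import Pool.Agent.Y105.RS.Stm

/-!
# Almost invariance of the law of the induced permutation (RS-NIV)
-/

set_option autoImplicit false
set_option linter.unusedSectionVars false

open Finset Equiv

namespace Pool.Agent.Y291.RS

open Pool.Agent.Y105.RS

section mean

variable {V : Type} [Fintype V] [DecidableEq V]

lemma wt_nonneg {p : V → V → ℝ} (hp : Wt p) {M : ℕ} (w : Fin M → Lt V) :
    0 ≤ ∏ i, p (w i).1.1 (w i).1.2 / 2 :=
  Finset.prod_nonneg fun i _ => div_nonneg (hp.nn _ _) (by norm_num)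

lemma mean_mono {p : V → V → ℝ} (hp : Wt p) {M : ℕ} {F G : (Fin M → Lt V) → ℝ}
    (h : ∀ w, F w ≤ G w) : mean p M F ≤ mean p M G :=
  Finset.sum_le_sum fun w _ => mul_le_mul_of_nonneg_left (h w) (wt_nonneg hp w)

lemma mean_add (p : V → V → ℝ) {M : ℕ} (F G : (Fin M → Lt V) → ℝ) :
    mean p M (fun w => F w + G w) = mean p M F + mean p M G := by
  simp only [mean, mul_add, Finset.sum_add_distrib]

lemma mean_sub (p : V → V → ℝ) {M : ℕ} (F G : (Fin M → Lt V) → ℝ) :
    mean p M (fun w => F w - G w) = mean p M F - mean p M G := by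
  simp only [mean, mul_sub, Finset.sum_sub_distrib]

lemma mean_smul (p : V → V → ℝ) {M : ℕ} (c : ℝ) (F : (Fin M → Lt V) → ℝ) :
    mean p M (fun w => c * F w) = c * mean p M F := by
  simp only [mean, Finset.mul_sum]
  refine Finset.sum_congr rfl fun w _ => ?_
  ring

lemma mean_sum (p : V → V → ℝ) {M : ℕ} {ι : Type*} (s : Finset ι)
    (F : ι → (Fin M → Lt V) → ℝ) :
    mean p M (fun w => ∑ i ∈ s, F i w) = ∑ i ∈ s, mean p M (F i) := by
  simp only [mean, Finset.mul_sum]
  rw [Finset.sum_comm]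

lemma mean_one [Nonempty V] {p : V → V → ℝ} (hp : Wt p) (M : ℕ) :
    mean p M (fun _ => 1) = 1 := by
  have h1 : ∑ l : Lt V, p l.1.1 l.1.2 / 2 = 1 := by
    rw [Fintype.sum_prod_type]
    simp only [Fintype.sum_bool]
    rw [Fintype.sum_prod_type]
    have h2 : ∀ x y : V, p x y / 2 + p x y / 2 = p x y := fun x y => by ring
    simp only [h2, hp.reg]
    rw [Finset.sum_const, Finset.card_univ, nsmul_eq_mul]
    have : (Fintype.card V : ℝ) ≠ 0 := by
      exact_mod_cast Fintype.card_ne_zero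
    field_simp
  have h3 := Fintype.sum_pow (fun l : Lt V => p l.1.1 l.1.2 / 2) M
  rw [h1, one_pow] at h3
  simp only [mean, mul_one]
  exact h3.symm

lemma mean_const [Nonempty V] {p : V → V → ℝ} (hp : Wt p) (M : ℕ) (c : ℝ) :
    mean p M (fun _ => c) = c := by
  have := mean_smul p c (fun _ : Fin M → Lt V => (1 : ℝ))
  rw [mean_one hp, mul_one] at this
  simpa using this

lemma mean_abs_sub_le {p : V → V → ℝ} (hp : Wt p) {M : ℕ} {F G E : (Fin M → Lt V) → ℝ}
    (h : ∀ w, |F w - G w| ≤ E w) : |mean p M F - mean p M G| ≤ mean p M E := by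
  rw [← mean_sub, abs_le]
  constructor
  · have h1 : mean p M (fun w => (-1) * E w) ≤ mean p M (fun w => F w - G w) :=
      mean_mono hp fun w => by have := (abs_le.mp (h w)).1; linarith
    rw [mean_smul] at h1
    linarith
  · exact mean_mono hp fun w => (abs_le.mp (h w)).2

end mean

section cls

variable {V : Type} [Fintype V] [DecidableEq V] {k R : ℕ}

/-- the tuple with the values `a`, `b` at the places `i`, `j` -/
def Fl (i j : Fin k) (z : Fin k → V) (a b : V) : Fin k → V :=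
  Function.update (Function.update z i a) j b

lemma Fl_i {i j : Fin k} (hij : i ≠ j) (z : Fin k → V) (a b : V) : Fl i j z a b i = a := by
  rw [Fl, Function.update_of_ne hij, Function.update_self]

lemma Fl_j (i j : Fin k) (z : Fin k → V) (a b : V) : Fl i j z a b j = b := by
  rw [Fl, Function.update_self]

lemma Fl_ne {i j l : Fin k} (hi : l ≠ i) (hj : l ≠ j) (z : Fin k → V) (a b : V) :
    Fl i j z a b l = z l := by
  rw [Fl, Function.update_of_ne hj, Function.update_of_ne hi]

lemma marks_Fl (i j : Fin k) (z : Fin k → V) (a b : V) (u : Fin R → V) :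
    marks (Fl i j z a b) i j u = marks z i j u := by
  unfold marks
  congr 1
  apply Finset.image_congr
  intro l hl
  have hl' : l ≠ i ∧ l ≠ j := by simpa using hl
  exact Fl_ne hl'.1 hl'.2 z a b

lemma mem_marks {i j l : Fin k} (hi : l ≠ i) (hj : l ≠ j) (z : Fin k → V) (u : Fin R → V) :
    z l ∈ marks z i j u := by
  unfold marks
  refine Finset.mem_union_left _ (Finset.mem_image.mpr ⟨l, ?_, rfl⟩)
  simp [hi, hj]

lemma card_marks_le (i j : Fin k) (z : Fin k → V) (u : Fin R → V) :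
    (marks z i j u).card ≤ k + R := by
  unfold marks
  refine (Finset.card_union_le _ _).trans ?_
  have h1 : (((univ : Finset (Fin k)).filter fun l => l ≠ i ∧ l ≠ j).image z).card ≤ k := by
    refine Finset.card_image_le.trans ((Finset.card_le_univ _).trans ?_)
    simp
  have h2 : ((univ : Finset (Fin R)).image u).card ≤ R := by
    refine Finset.card_image_le.trans ?_
    simp
  omega

/-- the separated tuples with induced permutation `π` -/
def Q (i j : Fin k) (π : Perm (Fin k)) (u : Fin R → V) (σ : Perm V) (z : Fin k → V) : Prop :=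
  Function.Injective z ∧ Ind σ z π ∧ Sep σ (marks z i j u) (z i) (z j)

lemma Fwd_unique {σ : Perm V} {D : Finset V} {a d d' : V} (h : Fwd σ D a d)
    (h' : Fwd σ D a d') : d = d' := by
  obtain ⟨hd, n, hn, hp⟩ := h
  obtain ⟨hd', n', hn', hp'⟩ := h'
  rcases lt_trichotomy n n' with hlt | heq | hgt
  · exact absurd (hn ▸ hd) (hp' n hlt)
  · subst heq
    rw [← hn, ← hn']
  · exact absurd (hn' ▸ hd') (hp n' hgt)

open scoped Classical in
/-- the class of a point: its first point of `D`, if `a` is not in `D` and this exists -/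
noncomputable def cls (σ : Perm V) (D : Finset V) (a : V) : Option V :=
  if h : a ∉ D ∧ ∃ d, Fwd σ D a d then some h.2.choose else none

lemma cls_some {σ : Perm V} {D : Finset V} {a d : V} :
    cls σ D a = some d ↔ a ∉ D ∧ Fwd σ D a d := by
  unfold cls
  constructor
  · intro h
    by_cases h0 : a ∉ D ∧ ∃ d, Fwd σ D a d
    · rw [dif_pos h0] at h
      have h1 := h0.2.choose_spec
      have h2 : h0.2.choose = d := by simpa using h
      rw [h2] at h1
      exact ⟨h0.1, h1⟩
    · rw [dif_neg h0] at h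
      exact absurd h (by simp)
  · rintro ⟨h1, h2⟩
    have h0 : a ∉ D ∧ ∃ d, Fwd σ D a d := ⟨h1, d, h2⟩
    rw [dif_pos h0]
    exact congrArg some (Fwd_unique h0.2.choose_spec h2)

lemma cls_mem {σ : Perm V} {D : Finset V} {a : V} : cls σ D a ∈ Finset.insertNone D := by
  cases h : cls σ D a with
  | none => simp
  | some d =>
    have := (cls_some.mp h).2.1
    simpa using this

lemma Fl_inj {i j : Fin k} (hij : i ≠ j) {z : Fin k → V} {u : Fin R → V} {a b a' b' : V}
    (hinj : Function.Injective (Fl i j z a b)) (ha : a' ∉ marks z i j u)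
    (hb : b' ∉ marks z i j u) (hab : a' ≠ b') : Function.Injective (Fl i j z a' b') := by
  intro l1 l2 h
  by_cases h1i : l1 = i
  · by_cases h2i : l2 = i
    · rw [h1i, h2i]
    · by_cases h2j : l2 = j
      · rw [h1i, h2j, Fl_i hij, Fl_j] at h
        exact absurd h hab
      · rw [h1i, Fl_i hij, Fl_ne h2i h2j] at h
        exact absurd (h ▸ mem_marks h2i h2j z u) ha
  · by_cases h1j : l1 = j
    · by_cases h2i : l2 = i
      · rw [h1j, h2i, Fl_i hij, Fl_j] at h
        exact absurd h.symm hab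
      · by_cases h2j : l2 = j
        · rw [h1j, h2j]
        · rw [h1j, Fl_j, Fl_ne h2i h2j] at h
          exact absurd (h ▸ mem_marks h2i h2j z u) hb
    · by_cases h2i : l2 = i
      · rw [h2i, Fl_i hij, Fl_ne h1i h1j] at h
        exact absurd (h ▸ mem_marks h1i h1j z u) ha
      · by_cases h2j : l2 = j
        · rw [h2j, Fl_j, Fl_ne h1i h1j] at h
          exact absurd (h ▸ mem_marks h1i h1j z u) hb
        · rw [Fl_ne h1i h1j, Fl_ne h2i h2j] at h
          apply hinj
          rw [Fl_ne h1i h1j, Fl_ne h2i h2j, h]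

lemma Q_of_cls (hINV : S_INV) {i j : Fin k} (hij : i ≠ j) {π : Perm (Fin k)} {u : Fin R → V}
    {σ : Perm V} {z : Fin k → V} {a b a' b' : V}
    (ha : cls σ (marks z i j u) a' = cls σ (marks z i j u) a)
    (hb : cls σ (marks z i j u) b' = cls σ (marks z i j u) b)
    (hQ : Q i j π u σ (Fl i j z a b)) : Q i j π u σ (Fl i j z a' b') := by
  obtain ⟨hinj, hind, hsep⟩ := hQ
  rw [marks_Fl, Fl_i hij, Fl_j] at hsep
  obtain ⟨haD, hbD, d, d', hdd, hfa, hfb⟩ := hsep
  have h1 : cls σ (marks z i j u) a' = some d := by rw [ha]; exact cls_some.mpr ⟨haD, hfa⟩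
  have h2 : cls σ (marks z i j u) b' = some d' := by rw [hb]; exact cls_some.mpr ⟨hbD, hfb⟩
  obtain ⟨ha'D, hfa'⟩ := cls_some.mp h1
  obtain ⟨hb'D, hfb'⟩ := cls_some.mp h2
  have hab' : a' ≠ b' := by
    intro h
    rw [h] at hfa'
    exact hdd (Fwd_unique hfa' hfb')
  have hinj' := Fl_inj hij hinj ha'D hb'D hab'
  refine ⟨hinj', ?_, ?_⟩
  · refine hINV V σ k (Fl i j z a b) (Fl i j z a' b') i j (marks z i j u) d d' hij hinj hinj'
      ?_ ?_ ?_ ?_ ?_ hdd ?_ ?_ ?_ ?_ π hind
    · intro l hi hj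
      rw [Fl_ne hi hj, Fl_ne hi hj]
      exact ⟨rfl, mem_marks hi hj z u⟩
    · rwa [Fl_i hij]
    · rwa [Fl_j]
    · rwa [Fl_i hij]
    · rwa [Fl_j]
    · rwa [Fl_i hij]
    · rwa [Fl_i hij]
    · rwa [Fl_j]
    · rwa [Fl_j]
  · rw [marks_Fl, Fl_i hij, Fl_j]
    exact ⟨ha'D, hb'D, d, d', hdd, hfa', hfb'⟩

open scoped Classical in
/-- the indicator of `Q` -/
noncomputable def G (i j : Fin k) (π : Perm (Fin k)) (u : Fin R → V) (z : Fin k → V)
    (σ : Perm V) (a b : V) : ℝ := if Q i j π u σ (Fl i j z a b) then 1 else 0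

lemma Q_swap (hIND : S_IND) {i j : Fin k} (hij : i ≠ j) (π : Perm (Fin k)) (u : Fin R → V)
    (σ : Perm V) (z : Fin k → V) (a b : V) :
    Q i j π u (swap a b * σ) (Fl i j z a b) ↔ Q i j (swap i j * π) u σ (Fl i j z a b) := by
  unfold Q
  constructor
  · rintro ⟨h1, h2, h3⟩
    have key := hIND V (swap a b * σ) k (Fl i j z a b) i j h1 hij
    rw [Fl_i hij, Fl_j, ← mul_assoc, swap_mul_self, one_mul] at key
    refine ⟨h1, (key.1 π).mp h2, ?_⟩
    rw [Fl_i hij, Fl_j] at h3 ⊢
    exact key.2 _ h3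
  · rintro ⟨h1, h2, h3⟩
    have key := hIND V σ k (Fl i j z a b) i j h1 hij
    rw [Fl_i hij, Fl_j] at key
    have h4 := (key.1 (swap i j * π)).mp h2
    rw [← mul_assoc, swap_mul_self, one_mul] at h4
    refine ⟨h1, h4, ?_⟩
    rw [Fl_i hij, Fl_j] at h3 ⊢
    exact key.2 _ h3

lemma G_swap (hIND : S_IND) {i j : Fin k} (hij : i ≠ j) (π : Perm (Fin k)) (u : Fin R → V)
    (z : Fin k → V) (σ : Perm V) (a b : V) :
    G i j π u z (swap a b * σ) a b = G i j (swap i j * π) u z σ a b := by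
  unfold G
  have hQ := Q_swap hIND hij π u σ z a b
  by_cases h : Q i j (swap i j * π) u σ (Fl i j z a b)
  · rw [if_pos h, if_pos (hQ.mpr h)]
  · rw [if_neg h, if_neg (fun h' => h (hQ.mp h'))]

lemma G_swap' (hIND : S_IND) {i j : Fin k} (hij : i ≠ j) (π : Perm (Fin k)) (u : Fin R → V)
    (z : Fin k → V) (σ : Perm V) (a b : V) :
    G i j π u z (swap a b * σ) b a = G i j (swap i j * π) u z σ b a := by
  rw [swap_comm]
  exact G_swap hIND hij π u z σ b a

lemma G_nonneg (i j : Fin k) (π : Perm (Fin k)) (u : Fin R → V) (z : Fin k → V)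
    (σ : Perm V) (a b : V) : 0 ≤ G i j π u z σ a b := by
  unfold G; split_ifs <;> norm_num

end cls

section base

variable {V : Type} [Fintype V] [DecidableEq V] {k R : ℕ}

lemma gg_const [Nonempty V] {m : ℕ} {p : V → V → ℝ} (hp : Wt p) (h : Fin m → Fin m → ℝ)
    (c : V → Fin m) (A : Perm V) :
    gg p (fun _ _ => 1 / (Fintype.card V : ℝ)) h (c ∘ A) =
      (∑ a, ∑ b, h (c a) (c b)) / (Fintype.card V : ℝ) ^ 2 := by
  unfold gg
  have h1 : ∀ x : V, ∑ y, p x y * ∑ z, 1 / (Fintype.card V : ℝ) * h ((c ∘ A) x) ((c ∘ A) z) =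
      (1 / (Fintype.card V : ℝ)) * ((1 / (Fintype.card V : ℝ)) * ∑ b, h (c (A x)) (c b)) := by
    intro x
    rw [← Finset.sum_mul, hp.reg, ← Finset.mul_sum]
    congr 2
    exact Equiv.sum_comp A (fun b => h (c (A x)) (c b))
  rw [Finset.sum_congr rfl fun x _ => h1 x, ← Finset.mul_sum, ← Finset.mul_sum,
    Equiv.sum_comp A (fun a => ∑ b, h (c a) (c b))]
  ring

lemma ker_const [Nonempty V] : Ker (fun _ _ : V => 1 / (Fintype.card V : ℝ))
    (1 / (Fintype.card V : ℝ)) where
  nn := fun _ _ => by positivity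
  le := fun _ _ => le_rfl
  sum := fun _ => by
    rw [Finset.sum_const, Finset.card_univ, nsmul_eq_mul]
    have : (Fintype.card V : ℝ) ≠ 0 := by
      exact_mod_cast Fintype.card_ne_zero
    field_simp

/-- the bound of the quasirandomness -/
noncomputable def er (n τ : ℝ) (m M : ℕ) : ℝ :=
  20 * Real.sqrt ((1 + τ) * (n * Real.log m +
    Real.log (Fintype.card (Fin m → Fin m → Bool))) / M) + 4 * (1 / n)

lemma key (hQR : S_QR) (hINV : S_INV) [Nonempty V] {p : V → V → ℝ} (hp : Wt p) {τ : ℝ}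
    (hτ : 0 ≤ τ) (hC : Cmp p (fun _ _ => 1 / (Fintype.card V : ℝ)) τ) {m M : ℕ}
    (hm : k + R + 1 ≤ m) (hm2 : 2 ≤ m) (hM : 1 ≤ M) {i j : Fin k} (hij : i ≠ j)
    (π : Perm (Fin k)) (z : Fin k → V) (u : Fin R → V) :
    |mean p M (fun w => (∑ l, (G i j π u z (wp w) (la w l) (lb w l) +
        G i j π u z (wp w) (lb w l) (la w l)) / 2) / M) -
      mean p M (fun w => (∑ a, ∑ b, G i j π u z (wp w) a b) / (Fintype.card V : ℝ) ^ 2)| ≤
      er (Fintype.card V) τ m M := by
  classical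
  set D := marks z i j u with hD
  -- the colours
  have hcard : Fintype.card (Finset.insertNone D) ≤ Fintype.card (Fin m) := by
    rw [Fintype.card_coe, Finset.card_insertNone, Fintype.card_fin]
    have hle : D.card ≤ k + R := card_marks_le i j z u
    omega
  obtain ⟨e⟩ := Function.Embedding.nonempty_of_card_le hcard
  let c : (Fin M → Lt V) → V → Fin m := fun w a => e ⟨cls (wp w) D a, cls_mem⟩
  let t : (Fin M → Lt V) → (Fin m → Fin m → Bool) := fun w x y =>
    decide (∃ a b, c w a = x ∧ c w b = y ∧ Q i j π u (wp w) (Fl i j z a b))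
  let h : (Fin m → Fin m → Bool) → Fin m → Fin m → ℝ := fun s x y =>
    ((if s x y then 1 else 0) + (if s y x then 1 else 0)) / 2
  have ht : ∀ w a b, (if t w (c w a) (c w b) then (1 : ℝ) else 0) = G i j π u z (wp w) a b := by
    intro w a b
    unfold G
    have hiff : t w (c w a) (c w b) = true ↔ Q i j π u (wp w) (Fl i j z a b) := by
      simp only [t, decide_eq_true_eq]
      constructor
      · rintro ⟨a', b', h1, h2, h3⟩
        have h1' : cls (wp w) D a' = cls (wp w) D a := by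
          have := e.injective h1
          simpa using this
        have h2' : cls (wp w) D b' = cls (wp w) D b := by
          have := e.injective h2
          simpa using this
        exact Q_of_cls hINV hij h1'.symm h2'.symm h3
      · intro h3
        exact ⟨a, b, rfl, rfl, h3⟩
    simp only [hiff]
  have hh : ∀ w a b, h (t w) (c w a) (c w b) =
      (G i j π u z (wp w) a b + G i j π u z (wp w) b a) / 2 := by
    intro w a b
    simp only [h, ht]
  have hgg : ∀ w l, gg p (fun _ _ => 1 / (Fintype.card V : ℝ)) (h (t w)) (c w ∘ pre w l) =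
      (∑ a, ∑ b, G i j π u z (wp w) a b) / (Fintype.card V : ℝ) ^ 2 := by
    intro w l
    rw [gg_const hp]
    congr 1
    simp only [hh]
    have h1 : ∑ a, ∑ b, (G i j π u z (wp w) a b + G i j π u z (wp w) b a) / 2 =
        (∑ a, ∑ b, G i j π u z (wp w) a b) / 2 + (∑ a, ∑ b, G i j π u z (wp w) b a) / 2 := by
      simp only [Finset.sum_div, ← Finset.sum_add_distrib, add_div]
    rw [h1, Finset.sum_comm (f := fun a b => G i j π u z (wp w) b a)]
    ring
  have main := hQR V p (fun _ _ => 1 / (Fintype.card V : ℝ)) (1 / (Fintype.card V : ℝ)) τ hp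
    ker_const hτ hC m M hm2 hM (Fin m → Fin m → Bool) h
    (fun s x y => by simp only [h]; ring)
    (fun s x y => by
      simp only [h]
      rw [abs_le]
      split_ifs <;> norm_num) t c
  rw [← mean_sub]
  have hMpos : (0 : ℝ) < M := by exact_mod_cast hM
  have heq : (fun w => (∑ l, (G i j π u z (wp w) (la w l) (lb w l) +
        G i j π u z (wp w) (lb w l) (la w l)) / 2) / (M : ℝ) -
      (∑ a, ∑ b, G i j π u z (wp w) a b) / (Fintype.card V : ℝ) ^ 2) =
      (fun w => (∑ l, (h (t w) (c w (la w l)) (c w (lb w l)) -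
        gg p (fun _ _ => 1 / (Fintype.card V : ℝ)) (h (t w)) (c w ∘ pre w l))) / (M : ℝ)) := by
    funext w
    simp only [hgg, hh, Finset.sum_sub_distrib, Finset.sum_const, Finset.card_univ,
      Fintype.card_fin, nsmul_eq_mul]
    field_simp
  rw [heq]
  exact main

lemma flip_eq (hFLIP : S_FLIP) (hIND : S_IND) (p : V → V → ℝ) {M : ℕ}
    {i j : Fin k} (hij : i ≠ j) (π : Perm (Fin k)) (z : Fin k → V) (u : Fin R → V) :
    mean p M (fun w => (∑ l, (G i j π u z (wp w) (la w l) (lb w l) +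
        G i j π u z (wp w) (lb w l) (la w l)) / 2) / M) =
      mean p M (fun w => (∑ l, (G i j (swap i j * π) u z (wp w) (la w l) (lb w l) +
        G i j (swap i j * π) u z (wp w) (lb w l) (la w l)) / 2) / M) := by
  have h1 : ∀ F : Fin M → (Fin M → Lt V) → ℝ, mean p M (fun w => (∑ l, F l w / 2) / M) =
      (1 / M) * ∑ l, (1 / 2) * mean p M (F l) := by
    intro F
    have : (fun w => (∑ l, F l w / 2) / (M : ℝ)) =
        fun w => (1 / (M : ℝ)) * ∑ l, (1 / 2) * F l w := by
      funext w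
      rw [div_eq_mul_inv, mul_comm, one_div]
      congr 1
      refine Finset.sum_congr rfl fun l _ => ?_
      ring
    rw [this, mean_smul, mean_sum]
    congr 1
    refine Finset.sum_congr rfl fun l _ => ?_
    rw [mean_smul]
  rw [h1, h1]
  congr 1
  refine Finset.sum_congr rfl fun l _ => ?_
  congr 1
  have h2 := hFLIP V p M l (fun σ a b => G i j π u z σ a b + G i j π u z σ b a)
  simp only [G_swap hIND hij, G_swap' hIND hij] at h2
  exact h2

lemma base (hQR : S_QR) (hFLIP : S_FLIP) (hIND : S_IND) (hINV : S_INV) [Nonempty V]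
    {p : V → V → ℝ} (hp : Wt p) {τ : ℝ}
    (hτ : 0 ≤ τ) (hC : Cmp p (fun _ _ => 1 / (Fintype.card V : ℝ)) τ) {m M : ℕ}
    (hm : k + R + 1 ≤ m) (hm2 : 2 ≤ m) (hM : 1 ≤ M) {i j : Fin k} (hij : i ≠ j)
    (π : Perm (Fin k)) (z : Fin k → V) (u : Fin R → V) :
    |mean p M (fun w => (∑ a, ∑ b, G i j π u z (wp w) a b) / (Fintype.card V : ℝ) ^ 2) -
      mean p M (fun w => (∑ a, ∑ b, G i j (swap i j * π) u z (wp w) a b) /
        (Fintype.card V : ℝ) ^ 2)| ≤ 2 * er (Fintype.card V) τ m M := by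
  have h1 := key hQR hINV hp hτ hC hm hm2 hM hij π z u
  have h2 := key hQR hINV hp hτ hC hm hm2 hM hij (swap i j * π) z u
  rw [flip_eq hFLIP hIND p hij π z u] at h1
  rw [abs_le] at h1 h2 ⊢
  constructor <;> linarith [h1.1, h1.2, h2.1, h2.2]

lemma upd_sum (i : Fin k) (F : (Fin k → V) → ℝ) :
    ∑ z : Fin k → V, ∑ a, F (Function.update z i a) = Fintype.card V * ∑ z, F z := by
  rw [← Fintype.sum_prod_type' (f := fun z a => F (Function.update z i a))]
  let e : (Fin k → V) × V ≃ (Fin k → V) × V :=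
    { toFun := fun x => (Function.update x.1 i x.2, x.1 i)
      invFun := fun x => (Function.update x.1 i x.2, x.1 i)
      left_inv := fun x => by simp
      right_inv := fun x => by simp }
  have h1 := Equiv.sum_comp e (fun x : (Fin k → V) × V => F x.1)
  have h2 : ∀ x : (Fin k → V) × V, (e x).1 = Function.update x.1 i x.2 := fun x => rfl
  simp only [h2] at h1
  rw [h1, Fintype.sum_prod_type]
  simp only [Finset.sum_const, Finset.card_univ, nsmul_eq_mul, ← Finset.mul_sum]

lemma Fl_sum (i j : Fin k) (F : (Fin k → V) → ℝ) :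
    ∑ z : Fin k → V, ∑ a, ∑ b, F (Fl i j z a b) = (Fintype.card V : ℝ) ^ 2 * ∑ z, F z := by
  have h1 := upd_sum i (fun y : Fin k → V => ∑ b, F (Function.update y j b))
  rw [upd_sum j F] at h1
  unfold Fl
  rw [h1]
  ring

open scoped Classical in
lemma tup_eq [Nonempty V] (k R : ℕ) (σ : Perm V) (π : Perm (Fin k)) :
    tup k σ π = (∑ _u : Fin R → V, ∑ z : Fin k → V,
      (if Function.Injective z ∧ Ind σ z π then (1 : ℝ) else 0)) /
        (Fintype.card V : ℝ) ^ (k + R) := by
  have hn : (Fintype.card V : ℝ) ≠ 0 := by exact_mod_cast Fintype.card_ne_zero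
  unfold tup
  rw [Finset.sum_const, Finset.card_univ, nsmul_eq_mul, Finset.sum_boole,
    Nat.card_eq_fintype_card, Fintype.card_subtype, Fintype.card_fun, Fintype.card_fin, pow_add]
  push_cast
  field_simp

open scoped Classical in
lemma tup_close [Nonempty V] (i j : Fin k) (σ : Perm V) (π : Perm (Fin k)) :
    |tup k σ π - (∑ u : Fin R → V, ∑ z : Fin k → V,
      (if Q i j π u σ z then (1 : ℝ) else 0)) / (Fintype.card V : ℝ) ^ (k + R)| ≤
      (Nat.card {b : (Fin k → V) × (Fin R → V) //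
        ¬ Sep σ (marks b.1 i j b.2) (b.1 i) (b.1 j)} : ℝ) / (Fintype.card V : ℝ) ^ (k + R) := by
  have hn : (0 : ℝ) < (Fintype.card V : ℝ) ^ (k + R) := by
    have : 0 < Fintype.card V := Fintype.card_pos
    positivity
  rw [tup_eq k R σ π, ← sub_div, abs_div, abs_of_pos hn]
  refine div_le_div_of_nonneg_right ?_ hn.le
  have h1 : (Nat.card {b : (Fin k → V) × (Fin R → V) //
        ¬ Sep σ (marks b.1 i j b.2) (b.1 i) (b.1 j)} : ℝ) =
      ∑ u : Fin R → V, ∑ z : Fin k → V,
        (if ¬ Sep σ (marks z i j u) (z i) (z j) then (1 : ℝ) else 0) := by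
    rw [Finset.sum_comm, ← Fintype.sum_prod_type' (f := fun (z : Fin k → V) (u : Fin R → V) =>
      (if ¬ Sep σ (marks z i j u) (z i) (z j) then (1 : ℝ) else 0)), Finset.sum_boole,
      Nat.card_eq_fintype_card, Fintype.card_subtype]
  rw [h1, ← Finset.sum_sub_distrib]
  refine (Finset.abs_sum_le_sum_abs _ _).trans (Finset.sum_le_sum fun u _ => ?_)
  rw [← Finset.sum_sub_distrib]
  refine (Finset.abs_sum_le_sum_abs _ _).trans (Finset.sum_le_sum fun z _ => ?_)
  by_cases hs : Sep σ (marks z i j u) (z i) (z j)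
  · have h2 : Q i j π u σ z ↔ (Function.Injective z ∧ Ind σ z π) := by
      unfold Q
      constructor
      · rintro ⟨h3, h4, _⟩
        exact ⟨h3, h4⟩
      · rintro ⟨h3, h4⟩
        exact ⟨h3, h4, hs⟩
    simp only [h2, sub_self, abs_zero]
    split_ifs <;> norm_num
  · have h2 : ¬ Q i j π u σ z := fun h => hs h.2.2
    rw [if_neg h2, if_pos hs]
    split_ifs <;> norm_num

open scoped Classical in
lemma sumQ [Nonempty V] (i j : Fin k) (σ : Perm V) (π : Perm (Fin k)) :
    (∑ u : Fin R → V, ∑ z : Fin k → V,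
      (if Q i j π u σ z then (1 : ℝ) else 0)) / (Fintype.card V : ℝ) ^ (k + R) =
    (1 / (Fintype.card V : ℝ) ^ (k + R)) * ∑ u : Fin R → V, ∑ z : Fin k → V,
      (∑ a, ∑ b, G i j π u z σ a b) / (Fintype.card V : ℝ) ^ 2 := by
  have hn : (Fintype.card V : ℝ) ≠ 0 := by exact_mod_cast Fintype.card_ne_zero
  rw [div_eq_mul_inv, mul_comm, one_div]
  congr 1
  refine Finset.sum_congr rfl fun u _ => ?_
  rw [← Finset.sum_div]
  have h1 := Fl_sum i j (fun z : Fin k → V => if Q i j π u σ z then (1 : ℝ) else 0)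
  unfold G
  rw [h1]
  field_simp

open scoped Classical in
lemma mid (hQR : S_QR) (hFLIP : S_FLIP) (hIND : S_IND) (hINV : S_INV) [Nonempty V]
    {p : V → V → ℝ} (hp : Wt p) {τ : ℝ}
    (hτ : 0 ≤ τ) (hC : Cmp p (fun _ _ => 1 / (Fintype.card V : ℝ)) τ) {m M : ℕ}
    (hm : k + R + 1 ≤ m) (hm2 : 2 ≤ m) (hM : 1 ≤ M) {i j : Fin k} (hij : i ≠ j)
    (π : Perm (Fin k)) :
    |mean p M (fun w => (∑ u : Fin R → V, ∑ z : Fin k → V,
        (if Q i j π u (wp w) z then (1 : ℝ) else 0)) / (Fintype.card V : ℝ) ^ (k + R)) -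
      mean p M (fun w => (∑ u : Fin R → V, ∑ z : Fin k → V,
        (if Q i j (swap i j * π) u (wp w) z then (1 : ℝ) else 0)) /
          (Fintype.card V : ℝ) ^ (k + R))| ≤ 2 * er (Fintype.card V) τ m M := by
  have hn : (0 : ℝ) < (Fintype.card V : ℝ) := by exact_mod_cast Fintype.card_pos
  simp only [sumQ]
  simp only [mean_smul, mean_sum]
  rw [← mul_sub, ← Finset.sum_sub_distrib, abs_mul, abs_of_pos (by positivity)]
  have h1 : |∑ u : Fin R → V, ((∑ z : Fin k → V, mean p M (fun w =>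
      (∑ a, ∑ b, G i j π u z (wp w) a b) / (Fintype.card V : ℝ) ^ 2)) -
      ∑ z : Fin k → V, mean p M (fun w =>
      (∑ a, ∑ b, G i j (swap i j * π) u z (wp w) a b) / (Fintype.card V : ℝ) ^ 2))| ≤
      ∑ _u : Fin R → V, ∑ _z : Fin k → V, 2 * er (Fintype.card V) τ m M := by
    refine (Finset.abs_sum_le_sum_abs _ _).trans (Finset.sum_le_sum fun u _ => ?_)
    rw [← Finset.sum_sub_distrib]
    refine (Finset.abs_sum_le_sum_abs _ _).trans (Finset.sum_le_sum fun z _ => ?_)
    exact base hQR hFLIP hIND hINV hp hτ hC hm hm2 hM hij π z u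
  refine (mul_le_mul_of_nonneg_left h1 (by positivity)).trans (le_of_eq ?_)
  rw [Finset.sum_const, Finset.sum_const, Finset.card_univ, Finset.card_univ, nsmul_eq_mul,
    nsmul_eq_mul, Fintype.card_fun, Fintype.card_fun, Fintype.card_fin, Fintype.card_fin, pow_add]
  push_cast
  field_simp

lemma total (hQR : S_QR) (hFLIP : S_FLIP) (hIND : S_IND) (hINV : S_INV) (hCNT : S_CNT)
    [Nonempty V] {p : V → V → ℝ} (hp : Wt p) {τ : ℝ}
    (hτ : 0 ≤ τ) (hC : Cmp p (fun _ _ => 1 / (Fintype.card V : ℝ)) τ) {m M K : ℕ}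
    (hR : 1 ≤ R) (hK : K ≤ Fintype.card V)
    (hm : k + R + 1 ≤ m) (hm2 : 2 ≤ m) (hM : 1 ≤ M) {i j : Fin k} (hij : i ≠ j)
    (π : Perm (Fin k)) :
    |mean p M (fun w => tup k (wp w) π) - mean p M (fun w => tup k (wp w) (swap i j * π))| ≤
      2 * ((2 * (k + R) + 2) / Fintype.card V + 2 * mean p M (fun w => small K (wp w)) +
        2 * (1 - (K : ℝ) / Fintype.card V) ^ R + 2 / (R + 1)) +
      2 * er (Fintype.card V) τ m M := by
  classical
  have hn : (0 : ℝ) < (Fintype.card V : ℝ) := by exact_mod_cast Fintype.card_pos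
  have h1 : ∀ ρ : Perm (Fin k), |mean p M (fun w => tup k (wp w) ρ) -
      mean p M (fun w => (∑ u : Fin R → V, ∑ z : Fin k → V,
        (if Q i j ρ u (wp w) z then (1 : ℝ) else 0)) / (Fintype.card V : ℝ) ^ (k + R))| ≤
      (2 * (k + R) + 2) / Fintype.card V + 2 * mean p M (fun w => small K (wp w)) +
        2 * (1 - (K : ℝ) / Fintype.card V) ^ R + 2 / (R + 1) := by
    intro ρ
    have h2 : ∀ w : Fin M → Lt V, |tup k (wp w) ρ - (∑ u : Fin R → V, ∑ z : Fin k → V,
        (if Q i j ρ u (wp w) z then (1 : ℝ) else 0)) / (Fintype.card V : ℝ) ^ (k + R)| ≤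
        ((2 * (k + R) + 2) / Fintype.card V + 2 * (1 - (K : ℝ) / Fintype.card V) ^ R +
          2 / (R + 1)) + 2 * small K (wp w) := by
      intro w
      refine (tup_close i j (wp w) ρ).trans ?_
      rw [div_le_iff₀ (by positivity)]
      refine (hCNT V (wp w) k R K i j hij hR hK).trans (le_of_eq ?_)
      ring
    refine (mean_abs_sub_le hp h2).trans (le_of_eq ?_)
    rw [mean_add, mean_const hp, mean_smul]
    ring
  have h3 := mid (R := R) hQR hFLIP hIND hINV hp hτ hC hm hm2 hM hij π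
  have h4 := h1 π
  have h5 := h1 (swap i j * π)
  rw [abs_le] at h3 h4 h5 ⊢
  constructor <;> linarith [h3.1, h3.2, h4.1, h4.2, h5.1, h5.2]

end base

lemma sqrt_aux {c Lg A B δ : ℝ} (hc : 0 < c) (hδ : 0 < δ) (hA : 0 < A) (h : B ≤ Lg / A)
    (h' : c ^ 2 * Lg / δ ^ 2 ≤ A) : c * Real.sqrt B ≤ δ := by
  have h1 : Real.sqrt B ≤ δ / c := by
    rw [Real.sqrt_le_iff]
    refine ⟨by positivity, h.trans ?_⟩
    rw [div_le_iff₀ hA]
    rw [div_le_iff₀ (by positivity)] at h'
    rw [div_pow, div_mul_eq_mul_div, le_div_iff₀ (by positivity)]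
    linarith
  calc c * Real.sqrt B ≤ c * (δ / c) := by gcongr
    _ = δ := by field_simp

/-- **RS-NIV.** -/
theorem niv (h1 : S_QR) (h2 : S_FLIP) (h3 : S_SMALL) (h4 : S_IND) (h5 : S_INV) (h6 : S_CNT) :
    S_NIV := by
  intro k η hη
  obtain ⟨C, hC0, hS⟩ := h3
  set δ : ℝ := η / 100 with hδ
  have hδ0 : 0 < δ := by positivity
  set κ : ℝ := min (1 / 2) (δ / C) with hκ
  have hκ0 : 0 < κ := lt_min (by norm_num) (by positivity)
  have hκ1 : κ ≤ 1 / 2 := min_le_left _ _
  have hκ2 : C * κ ≤ δ := by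
    have : κ ≤ δ / C := min_le_right _ _
    calc C * κ ≤ C * (δ / C) := by gcongr
      _ = δ := by field_simp
  obtain ⟨R1, hR1⟩ := exists_pow_lt_of_lt_one hδ0 (show 1 - κ / 2 < 1 by linarith)
  obtain ⟨R2, hR2⟩ := exists_nat_one_div_lt hδ0
  set R : ℕ := R1 + R2 + 1 with hR
  have hRp : (1 - κ / 2) ^ R ≤ δ := by
    refine le_trans ?_ hR1.le
    exact pow_le_pow_of_le_one (by linarith) (by linarith) (by omega)
  have hRq : 1 / ((R : ℝ) + 1) ≤ δ := by
    refine le_trans ?_ hR2.le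
    apply one_div_le_one_div_of_le (by positivity)
    have : (R2 : ℝ) ≤ R := by exact_mod_cast (by omega : R2 ≤ R)
    linarith
  obtain ⟨m0, hm0⟩ := exists_nat_one_div_lt (show 0 < δ / C by positivity)
  set m1 : ℕ := m0 + 2 with hm1
  have hm1q : C * (1 / (m1 : ℝ)) ≤ δ := by
    have h7 : 1 / (m1 : ℝ) ≤ 1 / ((m0 : ℝ) + 1) := by
      apply one_div_le_one_div_of_le (by positivity)
      rw [hm1]; push_cast; linarith
    calc C * (1 / (m1 : ℝ)) ≤ C * (δ / C) :=
          mul_le_mul_of_nonneg_left (h7.trans hm0.le) hC0.le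
      _ = δ := by field_simp
  set m2 : ℕ := k + R + 2 with hm2
  set L1 : ℝ := Real.log m1 with hL1
  set L2 : ℝ := Real.log m2 + Real.log (Fintype.card (Fin m2 → Fin m2 → Bool)) with hL2
  have hL1n : 0 ≤ L1 := Real.log_natCast_nonneg _
  have hL2a : 0 ≤ Real.log (m2 : ℝ) := Real.log_natCast_nonneg _
  have hL2b : 0 ≤ Real.log (Fintype.card (Fin m2 → Fin m2 → Bool) : ℝ) :=
    Real.log_natCast_nonneg _
  have hL2n : 0 ≤ L2 := add_nonneg hL2a hL2b
  set A : ℝ := 1 + 2 / κ + (2 * (k + R) + 2) / δ + C ^ 2 * L1 / δ ^ 2 + 20 ^ 2 * L2 / δ ^ 2 +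
    4 / δ with hA
  have t1 : 0 ≤ 2 / κ := by positivity
  have t2 : 0 ≤ (2 * ((k : ℝ) + R) + 2) / δ := by positivity
  have t3 : 0 ≤ C ^ 2 * L1 / δ ^ 2 := by positivity
  have t4 : 0 ≤ 20 ^ 2 * L2 / δ ^ 2 := by positivity
  have t5 : 0 ≤ 4 / δ := by positivity
  have hA0 : 0 < A := by linarith
  refine ⟨A, hA0, ?_⟩
  intro V _ _ _ p τ hp hτ hCmp M hAn hAM i j π hij
  set n : ℝ := (Fintype.card V : ℝ) with hn
  have hn0 : 0 < n := lt_of_lt_of_le hA0 hAn
  have hn1 : 1 ≤ n := by linarith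
  have hτ1 : 0 < 1 + τ := by linarith
  have hM0 : (0 : ℝ) < M := lt_of_lt_of_le (by positivity) hAM
  have hM1 : 1 ≤ M := by exact_mod_cast hM0
  -- the number K
  set K : ℕ := ⌊κ * n⌋₊ with hK
  have hKle : (K : ℝ) ≤ κ * n := Nat.floor_le (by positivity)
  have hKge : κ * n - 1 < K := by
    have := Nat.lt_floor_add_one (κ * n)
    rw [← hK] at this
    linarith
  have hκn : 2 ≤ κ * n := by
    have h7 : 2 / κ ≤ n := by linarith
    rw [div_le_iff₀ hκ0] at h7
    linarith
  have hK1 : 1 ≤ K := by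
    have : (0 : ℝ) < K := by linarith
    exact_mod_cast this
  have hKn : K ≤ Fintype.card V := by
    have h7 : (K : ℝ) ≤ (Fintype.card V : ℝ) := by
      rw [← hn]
      nlinarith
    exact_mod_cast h7
  have hKn2 : (K : ℝ) / n ≤ κ := by
    rw [div_le_iff₀ hn0]; exact hKle
  have hKn3 : κ / 2 ≤ (K : ℝ) / n := by
    rw [le_div_iff₀ hn0]; linarith
  have hpow : (1 - (K : ℝ) / n) ^ R ≤ δ := by
    refine le_trans ?_ hRp
    apply pow_le_pow_left₀ (by linarith) (by linarith)
  -- the size of the classes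
  have hratio : (1 + τ) * n / M ≤ 1 / A := by
    rw [div_le_div_iff₀ hM0 hA0]
    linarith
  have hsmall := hS V p (fun _ _ => 1 / n) (1 / n) τ hp ker_const hτ hCmp m1 M K
    (by omega) hM1 hK1
  have hs1 : C * Real.sqrt ((1 + τ) * (n * Real.log m1) / M) ≤ δ := by
    refine sqrt_aux (Lg := L1) hC0 hδ0 hA0 ?_ (by linarith)
    calc (1 + τ) * (n * Real.log m1) / M = ((1 + τ) * n / M) * L1 := by rw [hL1]; ring
      _ ≤ (1 / A) * L1 := by gcongr
      _ = L1 / A := by ring
  have hs2 : mean p M (fun w => small K (wp w)) ≤ 3 * δ := by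
    refine hsmall.trans ?_
    have h7 : C * ((K : ℝ) * (1 / n)) ≤ δ := by
      have : (K : ℝ) * (1 / n) = K / n := by ring
      rw [this]
      calc C * ((K : ℝ) / n) ≤ C * κ := by gcongr
        _ ≤ δ := hκ2
    calc C * (1 / (m1 : ℝ) + K * (1 / n) + Real.sqrt ((1 + τ) * (n * Real.log m1) / M)) =
        C * (1 / (m1 : ℝ)) + C * (K * (1 / n)) +
          C * Real.sqrt ((1 + τ) * (n * Real.log m1) / M) := by ring
      _ ≤ 3 * δ := by linarith
  have her : er n τ m2 M ≤ 2 * δ := by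
    unfold er
    have h7 : 20 * Real.sqrt ((1 + τ) * (n * Real.log m2 +
        Real.log (Fintype.card (Fin m2 → Fin m2 → Bool))) / M) ≤ δ := by
      refine sqrt_aux (Lg := L2) (by norm_num) hδ0 hA0 ?_ (by linarith)
      calc (1 + τ) * (n * Real.log m2 +
            Real.log (Fintype.card (Fin m2 → Fin m2 → Bool))) / M
          ≤ (1 + τ) * (n * Real.log m2 +
            n * Real.log (Fintype.card (Fin m2 → Fin m2 → Bool))) / M := by
            gcongr
            exact le_mul_of_one_le_left hL2b hn1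
        _ = ((1 + τ) * n / M) * L2 := by rw [hL2]; ring
        _ ≤ (1 / A) * L2 := by gcongr
        _ = L2 / A := by ring
    have h8 : 4 * (1 / n) ≤ δ := by
      have h9 : 4 / δ ≤ n := by linarith
      rw [div_le_iff₀ hδ0] at h9
      rw [mul_one_div, div_le_iff₀ hn0]
      linarith
    linarith
  have hfirst : (2 * ((k : ℝ) + R) + 2) / n ≤ δ := by
    have h9 : (2 * ((k : ℝ) + R) + 2) / δ ≤ n := by linarith
    rw [div_le_iff₀ hδ0] at h9
    rw [div_le_iff₀ hn0]
    linarith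
  have hlast : 2 / ((R : ℝ) + 1) ≤ 2 * δ := by
    calc 2 / ((R : ℝ) + 1) = 2 * (1 / ((R : ℝ) + 1)) := by ring
      _ ≤ 2 * δ := by gcongr
  have htot := total (R := R) (m := m2) (M := M) (K := K) h1 h2 h4 h5 h6 hp hτ hCmp (by omega)
    hKn (by omega) (by omega) hM1 hij π
  refine htot.trans ?_
  have hη' : η = 100 * δ := by rw [hδ]; ring
  rw [hη']
  linarith

end Pool.Agent.Y291.RS
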